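import Pool.Agent.V5helper10.GK.Stm
import Pool.Agent.N996.BP.Geo4

/-!
# Project GK, job BACK: recognising Hodge classes on the powers by their products with pure classes
-/

set_option autoImplicit false
set_option linter.unusedSectionVars false

open CategoryTheory AlgebraicGeometry TensorProduct

universe u

namespace Pool.Agent.V5helper65.GK

open Module
open Pool.Agent.H914 Pool.Agent.H914.VarClass Pool.Agent.H914.VarClass.Obj
  Pool.Agent.H914.WeilCohomology
open Pool.Agent.Y133.Half Pool.Agent.Y121.AH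
open Pool.Agent.N996.BP Pool.Agent.N996.BP.Geo
open Pool.Agent.V5helper10.KSC

section Ext

variable {K : Type*} [Field K] {κ : Type} [Fintype κ] [DecidableEq κ]

/-- A tensor which vanishes on a spanning set is zero. -/
lemma ext_pure {m : ℕ} (τ : (Fin m → κ) → K) (P : (κ → K) → Prop)
    (hP : Submodule.span K {v | P v} = ⊤)
    (h : ∀ v : Fin m → κ → K, (∀ l, P (v l)) → ∑ I, τ I * ∏ l, v l (I l) = 0) (I : Fin m → κ) :
    τ I = 0 := by
  classical
  let M : MultilinearMap K (fun _ : Fin m => κ → K) K :=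
    ∑ I, τ I • (MultilinearMap.mkPiAlgebra K (Fin m) K).compLinearMap
      (fun l => LinearMap.proj (I l))
  have hM : ∀ v, M v = ∑ I, τ I * ∏ l, v l (I l) := by
    intro v
    simp [M]
  have key : ∀ S : Finset (Fin m), ∀ v : Fin m → κ → K, (∀ l ∉ S, P (v l)) → M v = 0 := by
    intro S
    induction S using Finset.induction_on with
    | empty =>
      intro v hv
      rw [hM]
      exact h v fun l => hv l (Finset.notMem_empty l)
    | insert a S ha ih =>
      intro v hv
      have h1 : ∀ w ∈ Submodule.span K {v | P v}, M (Function.update v a w) = 0 := by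
        intro w hw
        induction hw using Submodule.span_induction with
        | mem w hw =>
          refine ih _ fun l hl => ?_
          by_cases hla : l = a
          · subst hla
            rw [Function.update_self]
            exact hw
          · rw [Function.update_of_ne hla]
            exact hv l fun h2 => (Finset.mem_insert.1 h2).elim hla hl
        | zero => exact M.map_update_zero v a
        | add x y _ _ hx hy => rw [M.map_update_add, hx, hy, add_zero]
        | smul r x _ hx => rw [M.map_update_smul, hx, smul_zero]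
      have h2 := h1 (v a) (by rw [hP]; trivial)
      rwa [Function.update_eq_self] at h2
  have h3 := key Finset.univ (fun l => Pi.single (I l) 1) (fun l hl => absurd (Finset.mem_univ l) hl)
  rw [hM, Finset.sum_eq_single I] at h3
  · simpa using h3
  · intro J _ hJ
    obtain ⟨l, hl⟩ : ∃ l, J l ≠ I l := Function.ne_iff.1 hJ
    rw [Finset.prod_eq_zero (Finset.mem_univ l), mul_zero]
    rw [Pi.single_apply, if_neg hl]
  · intro h4
    exact absurd (Finset.mem_univ I) h4

end Ext

variable {k : Type u} [Field k] {𝒱 : VarClass k} {ops : CycleOps 𝒱} {T : HodgeTheory ops}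
  {X : 𝒱.Obj} {κ : Type} [Fintype κ] [DecidableEq κ] (f : Basis κ T.W.K (T.W.H X))

/-- the class with the coordinates `v` -/
noncomputable def x1 (v : κ → ℂ) : (CW T).H X := ∑ i, cc T (v i) • em T.W ℂ (f i)

lemma x1_eq (v : κ → ℂ) : (show ℂ ⊗[T.W.K] T.W.H X from x1 f v) = ∑ i, (v i) ⊗ₜ[T.W.K] (f i) := by
  refine Finset.sum_congr rfl fun i _ => ?_
  exact (tmul_eq (W := T.W) (L := ℂ) (v i) (f i)).symm

/-- the coordinates of a class of pure type -/
def Pu (f : Basis κ T.W.K (T.W.H X)) (v : κ → ℂ) : Prop :=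
  ∃ p q : ℤ, ∑ i, (v i) ⊗ₜ[T.W.K] (f i) ∈ Fx T X (p, q)

lemma span_pu : Submodule.span ℂ {v | Pu f v} = ⊤ := by
  rw [eq_top_iff]
  intro w _
  have key : ∀ x : (CW T).H X, (fun i => crd f x i) ∈ Submodule.span ℂ {v | Pu f v} := by
    intro x
    refine pq_ind T (p := fun x => (fun i => crd f x i) ∈ Submodule.span ℂ {v | Pu f v}) ?_ ?_ ?_ x
    · intro a b x hx
      refine Submodule.subset_span ⟨a, b, ?_⟩
      have h1 := crd_sum f (show ℂ ⊗[T.W.K] T.W.H X from x)
      have h2 : ∑ i, (crd f x i) ⊗ₜ[T.W.K] (f i) = (show ℂ ⊗[T.W.K] T.W.H X from x) := by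
        rw [h1]
        refine Finset.sum_congr rfl fun i _ => ?_
        rw [TensorProduct.smul_tmul', smul_eq_mul, mul_one, ← h1]
      show ∑ i, (crd f x i) ⊗ₜ[T.W.K] (f i) ∈ Fx T X (a, b)
      rw [h2]
      exact hx
    · intro a b ha hb
      have h1 : (fun i => crd f (show ℂ ⊗[T.W.K] T.W.H X from (a + b)) i) =
          (fun i => crd f (show ℂ ⊗[T.W.K] T.W.H X from a) i) +
            (fun i => crd f (show ℂ ⊗[T.W.K] T.W.H X from b) i) := by
        funext i
        exact congrFun (crd_add f (show ℂ ⊗[T.W.K] T.W.H X from a)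
          (show ℂ ⊗[T.W.K] T.W.H X from b)) i
      exact h1 ▸ Submodule.add_mem _ ha hb
    · have h1 : (fun i => crd f (0 : ℂ ⊗[T.W.K] T.W.H X) i) = 0 := by
        funext i
        simp [crd]
      exact h1 ▸ Submodule.zero_mem _
  have h2 := key ((f.baseChange ℂ).equivFun.symm w)
  have h3 : (fun i => crd f ((f.baseChange ℂ).equivFun.symm w) i) = w := by
    funext i
    have := congrFun ((f.baseChange ℂ).equivFun.apply_symm_apply w) i
    exact this
  rwa [h3] at h2

/-- products of eigenvectors -/
lemma gop_emb (n : ℕ) : ∀ (v : Fin (n + 1) → κ → ℂ) (lam : Fin (n + 1) → (CW T).K),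
    (∀ l, gop T X (x1 f (v l)) = lam l • x1 f (v l)) →
    gop T (pw X n) (emb f n (fun I => ∏ l, v l (I l))) =
      (∏ l, lam l) • emb f n (fun I => ∏ l, v l (I l)) := by
  induction n with
  | zero =>
    intro v lam h
    have h1 : emb f 0 (fun I => ∏ l, v l (I l)) = x1 f (v 0) := by
      rw [emb, x1, ← Equiv.sum_comp (Equiv.funUnique (Fin 1) κ).symm]
      refine Finset.sum_congr rfl fun i _ => ?_
      rw [wb_zero]
      simp
      rfl
    rw [h1]
    have h2 : (∏ l : Fin (0 + 1), lam l) = lam 0 := by simp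
    rw [h2]
    exact h 0
  | succ n ih =>
    intro v lam h
    have h1 : emb f (n + 1) (fun I => ∏ l, v l (I l)) =
        (CW T).map (pfst X n) (emb f n (fun I => ∏ l, v l.castSucc (I l))) *
          (CW T).map (psnd X n) (x1 f (v (Fin.last _))) := by
      rw [emb, emb, x1, map_sum, map_sum, Finset.sum_mul_sum, sum_snoc]
      refine Finset.sum_congr rfl fun I _ => Finset.sum_congr rfl fun i _ => ?_
      rw [map_smul, map_smul, smul_mul_smul_comm, em_map, em_map, ← em_mul, ← wb_snoc,
        Fin.prod_univ_castSucc]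
      simp only [Fin.snoc_castSucc, Fin.snoc_last]
      rfl
    rw [h1, gop_mul, gop_map, gop_map,
      ih (fun l => v l.castSucc) (fun l => lam l.castSucc) (fun l => h l.castSucc), h (Fin.last _),
      map_smul, map_smul, smul_mul_smul_comm, Fin.prod_univ_castSucc lam]

lemma zpow_prod {F : Type*} [Field F] {a : F} (ha : a ≠ 0) {m : ℕ} (e : Fin m → ℤ) :
    ∏ l, a ^ e l = a ^ ∑ l, e l := by
  induction m with
  | zero => simp
  | succ m ih => rw [Fin.prod_univ_castSucc, Fin.sum_univ_castSucc, ih, zpow_add₀ ha]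

lemma tr_emb (n : ℕ) (A : (CW T).H (pw X n)) (z : (Fin (n + 1) → κ) → ℂ) :
    (CW T).tr (pw X n) (A * emb f n z) =
      ∑ I, (CW T).tr (pw X n) (A * em T.W ℂ (wb f n I)) * cc T (z I) := by
  rw [emb, Finset.mul_sum, map_sum]
  refine Finset.sum_congr rfl fun I _ => ?_
  rw [mul_smul_comm, map_smul, smul_eq_mul, mul_comm]

/-- **BACK** -/
theorem t_BACK : Pool.Agent.V5helper10.GK.S_BACK.{u} := by
  intro k _ 𝒱 ops T X Dv _ κ _ _ f n j c hc h
  refine isHodge_of_fix hc ?_
  set C : (CW T).H (pw X n) := em T.W ℂ c with hC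
  set A : (CW T).H (pw X n) := gop T (pw X n) C - C with hA
  have h0 : ∀ I, (CW T).tr (pw X n) (A * em T.W ℂ (wb f n I)) = 0 := by
    refine ext_pure (K := (CW T).K) (fun I => (CW T).tr (pw X n) (A * em T.W ℂ (wb f n I)))
      (Pu f) (span_pu f) ?_
    intro v hv
    choose p q hpq using hv
    set Y : (CW T).H (pw X n) := emb f n (fun I => ∏ l, v l (I l)) with hY
    have h1 : (CW T).tr (pw X n) (A * Y) =
        ∑ I, (CW T).tr (pw X n) (A * em T.W ℂ (wb f n I)) * ∏ l, v l (I l) := tr_emb f n A _
    rw [← h1]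
    have h2 : gop T (pw X n) Y = (∏ l, (2 : (CW T).K) ^ (p l - q l)) • Y := by
      refine gop_emb f n v _ fun l => gop_pq ?_
      have h3 := hpq l
      rw [← x1_eq f (v l)] at h3
      exact h3
    have h4 : (∏ l, (2 : (CW T).K) ^ (p l - q l)) = (2 : (CW T).K) ^ (∑ l, p l - ∑ l, q l) := by
      rw [← Finset.sum_sub_distrib]
      exact zpow_prod two_ne _
    rw [h4] at h2
    have h5 : (CW T).tr (pw X n) (gop T (pw X n) C * gop T (pw X n) Y) =
        (CW T).tr (pw X n) (C * Y) := by
      rw [← gop_mul, tr_gop]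
    rw [h2, mul_smul_comm, map_smul, smul_eq_mul] at h5
    rw [hA, sub_mul, map_sub]
    by_cases hs : ∑ l, p l = ∑ l, q l
    · rw [hs, sub_self, zpow_zero, one_mul] at h5
      rw [h5, sub_self]
    · have h6 : (CW T).tr (pw X n) (C * Y) = 0 := by
        have h9 := h p q v hpq hs
        rw [hY, tr_emb]
        refine Eq.trans (Finset.sum_congr rfl fun I _ => ?_) h9
        rw [hC, ← em_mul, em_tr]
        rfl
      rw [h6] at h5 ⊢
      rcases mul_eq_zero.1 h5 with h7 | h7
      · exact absurd h7 (zpow_ne_zero _ two_ne)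
      · rw [h7, sub_self]
  have h8 : A = 0 := by
    apply (CW T).nondeg
    intro b
    obtain ⟨z, rfl⟩ := emb_surj f n b
    rw [tr_emb]
    exact Finset.sum_eq_zero fun I _ => by rw [h0 I, zero_mul]
  exact sub_eq_zero.1 h8

end Pool.Agent.V5helper65.GK

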